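import Mathlib

set_option autoImplicit false
set_option linter.unusedSectionVars false
open Set Matrix Finset
open scoped ComplexOrder

namespace Pool.Agent.H.MP_18219f_mp

variable {m : Type} [Fintype m] [DecidableEq m]

noncomputable def T (f : ℝ → ℝ) (A : Matrix m m ℝ) : ℝ := (A.charpoly.roots.map f).sum

def fc (U : Matrix m m ℝ) (d : m → ℝ) : Matrix m m ℝ := U * diagonal d * Uᵀ

theorem T_conj (f : ℝ → ℝ) {U V : Matrix m m ℝ} (h : V * U = 1) (A : Matrix m m ℝ) :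
    T f (U * A * V) = T f A := by rw [T, charpoly_mul_comm, ← mul_assoc, h, one_mul, T]

theorem T_fc (f : ℝ → ℝ) {U : Matrix m m ℝ} (h : Uᵀ * U = 1) (d : m → ℝ) :
    T f (fc U d) = ∑ i, f (d i) := by
  rw [fc, T_conj f h, T, charpoly_diagonal, Polynomial.roots_prod _ _
    (by simp [prod_ne_zero_iff, Polynomial.X_sub_C_ne_zero])]
  simp

theorem spec {A : Matrix m m ℝ} (hA : A.IsHermitian) :
    ∃ U : Matrix m m ℝ, Uᵀ * U = 1 ∧ ∀ f, cfc f A = fc U fun i => f (hA.eigenvalues i) :=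
  ⟨hA.eigenvectorUnitary, hA.eigenvectorUnitary.2.1, fun f => hA.cfc_eq f⟩

theorem spec' {A : Matrix m m ℝ} (hA : A.IsHermitian) :
    ∃ (U : Matrix m m ℝ) (d : m → ℝ), Uᵀ * U = 1 ∧ A = fc U d :=
  ⟨hA.eigenvectorUnitary, hA.eigenvalues, hA.eigenvectorUnitary.2.1, hA.spectral_theorem⟩

theorem fc_mul {U : Matrix m m ℝ} (h : Uᵀ * U = 1) (d e : m → ℝ) :
    fc U d * fc U e = fc U fun i => d i * e i := by
  simp only [fc, ← diagonal_mul_diagonal, mul_assoc]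
  rw [← mul_assoc Uᵀ, h, one_mul]

theorem fc_one {U : Matrix m m ℝ} (h : Uᵀ * U = 1) : fc U (fun _ => 1) = 1 := by
  rw [fc, diagonal_one, mul_one, mul_eq_one_comm.1 h]

theorem fc_add (U : Matrix m m ℝ) (d e : m → ℝ) : fc U d + fc U e = fc U fun i => d i + e i := by
  simp only [fc, ← diagonal_add, mul_add, add_mul]

theorem fc_sub (U : Matrix m m ℝ) (d e : m → ℝ) : fc U d - fc U e = fc U fun i => d i - e i := by
  simp only [fc, ← diagonal_sub, mul_sub, sub_mul]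

theorem fc_tr (U : Matrix m m ℝ) (d : m → ℝ) : (fc U d)ᵀ = fc U d := by
  simp [fc, mul_assoc]

theorem fc_inv {U : Matrix m m ℝ} (h : Uᵀ * U = 1) {d : m → ℝ} (hd : ∀ i, d i ≠ 0) :
    (fc U d)⁻¹ = fc U fun i => (d i)⁻¹ :=
  inv_eq_right_inv (by simp only [fc_mul h, mul_inv_cancel₀ (hd _), fc_one h])

theorem fc_back {U : Matrix m m ℝ} (h : Uᵀ * U = 1) (d : m → ℝ) : Uᵀ * fc U d * U = diagonal d := by
  simp only [fc, ← mul_assoc, h, one_mul]
  rw [mul_assoc, h, mul_one]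

theorem fc_pos {U : Matrix m m ℝ} (h : Uᵀ * U = 1) {d : m → ℝ} (hd : (fc U d).PosDef) (i : m) :
    0 < d i := by
  have := hd.conjTranspose_mul_mul_same (B := U)
    (mulVec_injective_iff_isUnit.2 (IsUnit.of_mul_eq_one_right _ h))
  rw [conjTranspose_eq_transpose_of_trivial, fc_back h] at this
  exact posDef_diagonal_iff.1 this i

theorem fc_nonneg {U : Matrix m m ℝ} (h : Uᵀ * U = 1) {d : m → ℝ} (hd : (fc U d).PosSemidef)
    (i : m) : 0 ≤ d i := by
  have := hd.conjTranspose_mul_mul_same U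
  rw [conjTranspose_eq_transpose_of_trivial, fc_back h] at this
  exact posSemidef_diagonal_iff.1 this i

theorem fc_psd (U : Matrix m m ℝ) {d : m → ℝ} (hd : ∀ i, 0 ≤ d i) : (fc U d).PosSemidef :=
  (PosSemidef.diagonal hd).mul_mul_conjTranspose_same U

noncomputable def φ (h : ℝ) : ℝ := Real.log (1 + h) - Real.log (1 - h)

noncomputable def ψ (r : ℝ) : ℝ := φ |1 - 2 * r|

theorem φ_mono : MonotoneOn φ (Ico 0 1) := fun a ha b hb h =>
  sub_le_sub (Real.log_le_log (by linarith [ha.1]) (by linarith))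
    (Real.log_le_log (by linarith [hb.2]) (by linarith))

theorem φ_der {x : ℝ} (h0 : -1 < x) (h1 : x < 1) : HasDerivAt φ (2 / (1 - x ^ 2)) x := by
  have a : 1 + x ≠ 0 := by linarith
  have b : 1 - x ≠ 0 := by linarith
  have c : 1 - x ^ 2 ≠ 0 := by nlinarith
  refine ((((hasDerivAt_id' x).const_add 1).log a).sub
    (((hasDerivAt_id' x).const_sub 1).log b)).congr_deriv ?_
  field_simp; ring

theorem φ_conv : ConvexOn ℝ (Ico 0 1) φ := by
  refine MonotoneOn.convexOn_of_deriv (convex_Ico 0 1) (fun x hx =>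
    (φ_der (by linarith [hx.1]) hx.2).continuousAt.continuousWithinAt) ?_ ?_ <;> rw [interior_Ico]
  · exact fun x hx => (φ_der (by linarith [hx.1]) hx.2).differentiableAt.differentiableWithinAt
  · intro x hx y hy h
    rw [(φ_der (by linarith [hx.1]) hx.2).deriv, (φ_der (by linarith [hy.1]) hy.2).deriv]
    gcongr
    · nlinarith [hy.1, hy.2]
    · exact hx.1.le

theorem abs_mem {r : ℝ} (h : r ∈ Set.Ioo (0 : ℝ) 1) : |1 - 2 * r| ∈ Set.Ico (0 : ℝ) 1 :=
  ⟨abs_nonneg _, abs_lt.2 ⟨by linarith [h.2], by linarith [h.1]⟩⟩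

theorem ψ_conv : ConvexOn ℝ (Ioo 0 1) ψ := ⟨convex_Ioo 0 1, fun x hx y hy a b ha hb e =>
  le_trans (φ_mono (abs_mem (convex_Ioo 0 1 hx hy ha hb e))
    (convex_Ico 0 1 (abs_mem hx) (abs_mem hy) ha hb e) (by
      rw [show 1 - 2 * (a • x + b • y) = a * (1 - 2 * x) + b * (1 - 2 * y) by
        simp only [smul_eq_mul]; linear_combination -e]
      exact (abs_add_le _ _).trans_eq (by rw [abs_mul, abs_mul, abs_of_nonneg ha, abs_of_nonneg hb]; rfl)))
    (φ_conv.2 (abs_mem hx) (abs_mem hy) ha hb e)⟩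

theorem ψ_nonneg {r : ℝ} (h : r ∈ Set.Ioo (0 : ℝ) 1) : 0 ≤ ψ r :=
  le_trans (by simp [φ]) (φ_mono ⟨le_rfl, one_pos⟩ (abs_mem h) (abs_nonneg _))

theorem ψ_cont : ContinuousOn ψ (Ioo 0 1) := fun _ h =>
  ((φ_der (by linarith [(abs_mem h).1]) (abs_mem h).2).continuousAt.comp
    (f := fun r : ℝ => |1 - 2 * r|) (by fun_prop)).continuousWithinAt

theorem ψ_eq {d : ℝ} (hd : 0 < d) : ψ (d + 1)⁻¹ = |Real.log d| := by
  have e1 : 1 + (1 - 2 * (d + 1)⁻¹) = d * (2 / (d + 1)) := by field_simp; ring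
  have e2 : 1 - (1 - 2 * (d + 1)⁻¹) = 2 / (d + 1) := by field_simp; ring
  have e : φ (1 - 2 * (d + 1)⁻¹) = Real.log d := by
    rw [φ, e1, e2, Real.log_mul hd.ne' (by positivity)]; ring
  have e3 : 1 - 2 * (d + 1)⁻¹ = (d - 1) / (d + 1) := by field_simp; ring
  rcases le_total 1 d with c | c
  · rw [ψ, abs_of_nonneg (e3 ▸ div_nonneg (by linarith) (by linarith)), e,
      abs_of_nonneg (Real.log_nonneg c)]
  · rw [ψ, abs_of_nonpos (e3 ▸ div_nonpos_of_nonpos_of_nonneg (by linarith) (by linarith)),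
      abs_of_nonpos (Real.log_nonpos hd.le c), ← e, φ, φ, sub_neg_eq_add, ← sub_eq_add_neg, neg_sub]

theorem half {n k : ℕ} (hk : k = n + n) {a : Fin k → ℝ} (ha : Antitone a)
    (hs : ∀ f : ℝ → ℝ, ∑ i, f (a i) = ∑ i, f (-a i)) :
    ∑ i : Fin k with i.1 < n, a i = (∑ i, |a i|) / 2 := by
  have c : #{i | a i < 0} = #{i | 0 < a i} := by
    have := hs fun t => if t < 0 then 1 else 0
    simpa using this
  have c2 : #{i | a i < 0} + #{i | 0 < a i} ≤ k := by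
    rw [← card_union_of_disjoint (disjoint_filter.2 fun i _ h => not_lt.2 h.le)]
    exact (card_le_univ _).trans_eq (Fintype.card_fin k)
  have h1 : ∀ i : Fin k, i.1 < n → 0 ≤ a i := fun i hi => not_lt.1 fun h => by
    have := card_le_card (s := Finset.Ici i) (t := {i | a i < 0}) fun j hj =>
      mem_filter.2 ⟨mem_univ _, (ha (Finset.mem_Ici.1 hj)).trans_lt h⟩
    rw [Fin.card_Ici] at this
    omega
  have h2 : ∀ i : Fin k, ¬ i.1 < n → a i ≤ 0 := fun i hi => not_lt.1 fun h => by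
    have := card_le_card (s := Finset.Iic i) (t := {i | 0 < a i}) fun j hj =>
      mem_filter.2 ⟨mem_univ _, h.trans_le (ha (Finset.mem_Iic.1 hj))⟩
    rw [Fin.card_Iic] at this
    omega
  have h3 := hs id
  simp only [id, sum_neg_distrib] at h3
  have h4 := sum_filter_add_sum_filter_not univ (fun i : Fin k => i.1 < n) a
  rw [← sum_filter_add_sum_filter_not univ (fun i : Fin k => i.1 < n) fun i => |a i|,
    sum_congr rfl fun i hi => abs_of_nonneg (h1 i (mem_filter.1 hi).2),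
    sum_congr rfl fun i hi => abs_of_nonpos (h2 i (mem_filter.1 hi).2), sum_neg_distrib]
  linarith

theorem inv_anti {A B : Matrix m m ℝ} (hA : A.PosDef) (h : (B - A).PosSemidef) :
    (A⁻¹ - B⁻¹).PosSemidef := by
  have hB : B.PosDef := by simpa using hA.add_posSemidef h
  have a := mul_nonsing_inv A (isUnit_iff_isUnit_det A |>.1 hA.isUnit)
  have b := mul_nonsing_inv B (isUnit_iff_isUnit_det B |>.1 hB.isUnit)
  have a' := mul_eq_one_comm.1 a
  have b' := mul_eq_one_comm.1 b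
  have := (h.conjTranspose_mul_mul_same B⁻¹).add
    (hA.inv.posSemidef.conjTranspose_mul_mul_same ((B - A) * B⁻¹))
  rw [conjTranspose_mul, hB.inv.1.eq, h.1.eq] at this
  convert this using 1
  simp only [mul_sub, sub_mul, b, b', mul_assoc, a, one_mul, mul_one]
  rw [← mul_assoc A⁻¹, a', one_mul]
  abel

def Rs (J γ : Matrix m m ℝ) : Set (Matrix m m ℝ) :=
  {R | J * R * Jᵀ = 1 - R ∧ (R - (γ + 1)⁻¹).PosSemidef}

variable {J γ : Matrix m m ℝ}

theorem Rs_pos (hJ : Jᵀ * J = 1) (hγ : γ.PosSemidef) {R : Matrix m m ℝ} (h : R ∈ Rs J γ) :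
    R.PosDef ∧ (1 - R).PosDef := by
  have : R.PosDef := by simpa using (PosDef.posSemidef_add hγ PosDef.one).inv.add_posSemidef h.2
  exact ⟨this, h.1 ▸ this.mul_mul_conjTranspose_same
    (vecMul_injective_iff_isUnit.2 (IsUnit.of_mul_eq_one_right _ hJ))⟩

theorem fc_Ioo {U : Matrix m m ℝ} (h : Uᵀ * U = 1) {d : m → ℝ}
    (hd : (fc U d).PosDef ∧ (1 - fc U d).PosDef) (i : m) : d i ∈ Set.Ioo (0 : ℝ) 1 :=
  ⟨fc_pos h hd.1 i, sub_pos.1 (fc_pos h (d := fun i => 1 - d i) (by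
    rw [← fc_sub, fc_one h]; exact hd.2) i)⟩

theorem ev_congr {E : Type} [NormedAddCommGroup E] [InnerProductSpace ℝ E] [FiniteDimensional ℝ E]
    {A B : E →ₗ[ℝ] E} (hA : A.IsSymmetric) (hB : B.IsSymmetric) (h : A = B) {n : ℕ}
    (hn : Module.finrank ℝ E = n) : hA.eigenvalues hn = hB.eigenvalues hn := by subst h; rfl

theorem sv (S : Matrix m m ℝ) (hP : (Sᵀ * S).IsHermitian) (i : Fin (Fintype.card m)) :
    (toEuclideanLin S).singularValues i = √(hP.eigenvalues₀ i) := by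
  have e : (toEuclideanLin S).adjoint ∘ₗ toEuclideanLin S = toEuclideanLin (Sᵀ * S) := by
    rw [← toEuclideanLin_conjTranspose_eq_adjoint]
    exact (toLpLin_mul_same 2 _ _).symm
  rw [(toEuclideanLin S).singularValues_fin (finrank_euclideanSpace (𝕜 := ℝ) (ι := m)) i,
    ev_congr _ (isSymmetric_toEuclideanLin_iff.mpr hP) e, IsHermitian.eigenvalues₀]

theorem cost (hJ : Jᵀ * J = 1) (hJ' : Jᵀ = -J) {n : ℕ} (hn : Fintype.card m = n + n)
    {S : Matrix m m ℝ} (hS : Sᵀ * J * S = J) :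
    J * (Sᵀ * S + 1)⁻¹ * Jᵀ = 1 - (Sᵀ * S + 1)⁻¹ ∧
    ∑ i ∈ range n, Real.log ((toEuclideanLin S).singularValues i) = T ψ (Sᵀ * S + 1)⁻¹ / 4 := by
  have hJ2 := mul_eq_one_comm.1 hJ
  have s1 : Jᵀ * Sᵀ * J * S = 1 := by rw [mul_assoc, mul_assoc, ← mul_assoc Sᵀ, hS, hJ]
  have s2 : S * J * Sᵀ = J := by
    have := congrArg (· * Jᵀ) (mul_eq_one_comm.1 s1)
    simp only [mul_assoc, hJ2, mul_one, one_mul] at this
    rw [hJ', neg_mul, mul_neg, neg_inj] at this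
    rw [mul_assoc, this]
  have s3 : Sᵀ * S * (J * (Sᵀ * S) * Jᵀ) = 1 := by
    rw [show Sᵀ * S * (J * (Sᵀ * S) * Jᵀ) = Sᵀ * (S * J * Sᵀ) * S * Jᵀ by simp only [mul_assoc],
      s2, hS, hJ2]
  have hp := posSemidef_conjTranspose_mul_self S
  have hP : (Sᵀ * S).PosDef := hp.posDef_iff_isUnit.2 (IsUnit.of_mul_eq_one _ s3)
  have h1 := PosDef.add hP PosDef.one
  have a := mul_nonsing_inv _ (isUnit_iff_isUnit_det _ |>.1 h1.isUnit)
  constructor
  · refine (inv_eq_right_inv (A := J * (Sᵀ * S) * Jᵀ + 1) ?_).symm.trans (inv_eq_left_inv ?_)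
    · rw [show J * (Sᵀ * S) * Jᵀ + 1 = J * (Sᵀ * S + 1) * Jᵀ by rw [mul_add, add_mul, mul_one, hJ2],
        mul_assoc, mul_assoc J, mul_assoc J, ← mul_assoc Jᵀ, hJ, one_mul, ← mul_assoc (_ + _), a,
        one_mul, hJ2]
    · have a' := mul_eq_one_comm.1 a
      generalize Sᵀ * S = τ at *
      rw [show 1 - (τ + 1)⁻¹ = (τ + 1)⁻¹ * τ by
        rw [sub_eq_iff_eq_add, ← mul_add_one, a'],
        mul_assoc, mul_add, s3, mul_one, add_comm 1, a']
  have sv := sv S hP.1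
  have tf : ∀ f, T f (Sᵀ * S) = ∑ i, f (hP.1.eigenvalues₀ i) := fun f => by
    rw [T, hP.1.roots_charpoly_eq_eigenvalues₀, Multiset.map_map]; rfl
  have p0 : ∀ i, 0 < hP.1.eigenvalues₀ i := fun i => by
    simpa [IsHermitian.eigenvalues] using
      hP.eigenvalues_pos (Fintype.equivOfCardEq (Fintype.card_fin _) i)
  obtain ⟨U, d, hU, e⟩ := spec' hP.1
  have d0 := fc_pos hU (e ▸ hP)
  have := half hn (a := fun i => Real.log (hP.1.eigenvalues₀ i))
    (fun i j h => Real.log_le_log (p0 j) (hP.1.eigenvalues₀_antitone h)) fun f => by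
      rw [← tf fun t => f (Real.log t), ← tf fun t => f (-Real.log t), ← T_conj _ hJ,
        ← inv_eq_right_inv s3, e, fc_inv hU fun i => (d0 i).ne', T_fc _ hU, T_fc _ hU]
      simp
  rw [← tf fun t => |Real.log t|, show T _ (Sᵀ * S) = _ from e ▸ T_fc _ hU d] at this
  rw [show range n = (range (Fintype.card m)).filter (· < n) by ext; simp; omega, sum_filter,
    sum_range, ← sum_filter]
  simp only [sv, Real.log_sqrt (p0 _).le, ← sum_div, this]
  rw [e, ← fc_one hU, fc_add, fc_inv hU fun i => by linarith [d0 i], T_fc _ hU]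
  simp only [ψ_eq (d0 _)]
  ring

def vals (J : Matrix m m ℝ) (n : ℕ) (γ : Matrix m m ℝ) : Set ℝ :=
  {x | ∃ S : Matrix m m ℝ, Sᵀ * J * S = J ∧ (γ - Sᵀ * S).PosSemidef ∧
    x = ∑ i ∈ range n, Real.log ((toEuclideanLin S).singularValues i)}

theorem vals_eq (hJ : Jᵀ * J = 1) (hJ' : Jᵀ = -J) {n : ℕ} (hn : Fintype.card m = n + n)
    (hγ : γ.PosSemidef) : vals J n γ = (fun R => T ψ R / 4) '' Rs J γ := by
  ext x
  constructor
  · rintro ⟨S, h1, h2, rfl⟩
    exact ⟨_, ⟨(cost hJ hJ' hn h1).1, inv_anti (PosDef.posSemidef_add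
      (posSemidef_conjTranspose_mul_self S) PosDef.one) (by simpa using h2)⟩,
      (cost hJ hJ' hn h1).2.symm⟩
  rintro ⟨R, hR, rfl⟩
  have hp := Rs_pos hJ hγ hR
  obtain ⟨U, d, hU, rfl⟩ := spec' hp.1.1
  have hd := fc_Ioo hU hp
  have p : ∀ i, 0 ≤ (d i)⁻¹ - 1 := fun i => sub_nonneg.2 (one_le_inv₀ (hd i).1 |>.2 (hd i).2.le)
  have e : (fc U fun i => √((d i)⁻¹ - 1))ᵀ * (fc U fun i => √((d i)⁻¹ - 1)) + 1 = (fc U d)⁻¹ := by
    rw [fc_tr, fc_mul hU, ← fc_one hU, fc_add, fc_inv hU fun i => (hd i).1.ne']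
    simp only [Real.mul_self_sqrt (p _), sub_add_cancel]
  have ii := nonsing_inv_nonsing_inv _ (isUnit_iff_isUnit_det _ |>.1 hp.1.isUnit)
  have sy : (fc U fun i => √((d i)⁻¹ - 1))ᵀ * J * (fc U fun i => √((d i)⁻¹ - 1)) = J := by
    have hU' := mul_eq_one_comm.1 hU
    have e1 : Uᵀ * J * U * diagonal d = diagonal (fun i => 1 - d i) * (Uᵀ * J * U) := by
      have := congrArg (fun X => Uᵀ * X * J * U) hR.1
      rw [← fc_one hU, fc_sub] at this
      simp only [fc, mul_assoc] at this ⊢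
      rwa [← mul_assoc Jᵀ, hJ, one_mul, hU, mul_one, ← mul_assoc Uᵀ U, hU, one_mul] at this
    have e2 : diagonal (fun i => √((d i)⁻¹ - 1)) * (Uᵀ * J * U) * diagonal (fun i => √((d i)⁻¹ - 1))
        = Uᵀ * J * U := by
      ext i j
      have := congrFun (congrFun e1 i) j
      rw [mul_diagonal, diagonal_mul] at this
      rw [mul_diagonal, diagonal_mul]
      by_cases c : (Uᵀ * J * U) i j = 0
      · simp [c]
      have e3 : d j = 1 - d i := mul_left_cancel₀ c (this.trans (mul_comm _ _))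
      have := (hd i).1.ne'
      have := (sub_pos.2 (hd i).2).ne'
      rw [mul_right_comm, ← Real.sqrt_mul (p i), e3, show ((d i)⁻¹ - 1) * ((1 - d i)⁻¹ - 1) = 1 by
        field_simp; ring, Real.sqrt_one, one_mul]
    have := congrArg (fun X => U * X * Uᵀ) e2
    rw [fc_tr]
    simp only [fc, mul_assoc, hU', mul_one] at this ⊢
    rwa [← mul_assoc U Uᵀ, hU', one_mul] at this
  refine ⟨_, sy, ?_, ?_⟩
  · have h1 := PosDef.posSemidef_add hγ PosDef.one
    have := inv_anti h1.inv hR.2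
    rw [nonsing_inv_nonsing_inv _ (isUnit_iff_isUnit_det _ |>.1 h1.isUnit), ← e] at this
    simpa using this
  · rw [(cost hJ hJ' hn sy).2, e, ii]

theorem peierls {R V : Matrix m m ℝ} (hR : R.PosDef ∧ (1 - R).PosDef) (hV : Vᵀ * V = 1) :
    ∑ j, ψ ((Vᵀ * R * V) j j) ≤ T ψ R := by
  obtain ⟨U, d, hU, rfl⟩ := spec' hR.1.1
  have hd := fc_Ioo hU hR
  have w1 : (Vᵀ * U) * (Vᵀ * U)ᵀ = 1 := by
    rw [transpose_mul, mul_assoc, ← mul_assoc U, mul_eq_one_comm.1 hU, one_mul, transpose_transpose,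
      hV]
  have w2 := mul_eq_one_comm.1 w1
  rw [T_fc _ hU, show Vᵀ * fc U d * V = fc (Vᵀ * U) d by simp [fc, mul_assoc]]
  generalize Vᵀ * U = W at *
  calc _ ≤ ∑ j, ∑ i, (W j i * W j i) • ψ (d i) := sum_le_sum fun j _ => le_of_eq_of_le
        (congrArg ψ (by rw [fc, mul_apply]; simp [mul_right_comm]))
        (ψ_conv.map_sum_le (fun i _ => mul_self_nonneg _)
          (by simpa [mul_apply] using congrFun (congrFun w1 j) j) fun i _ => hd i)
    _ = _ := by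
      rw [sum_comm]
      refine sum_congr rfl fun i _ => ?_
      rw [← sum_smul, show ∑ j, W j i * W j i = 1 by
        simpa [mul_apply] using congrFun (congrFun w2 i) i, one_smul]

theorem T_nonneg {R : Matrix m m ℝ} (hR : R.PosDef ∧ (1 - R).PosDef) : 0 ≤ T ψ R := by
  obtain ⟨U, d, hU, rfl⟩ := spec' hR.1.1
  rw [T_fc _ hU]
  exact sum_nonneg fun i _ => ψ_nonneg (fc_Ioo hU hR i)

def Cov (J γ : Matrix m m ℝ) : Prop :=
  γ.IsSymm ∧ (γ.map ((↑) : ℝ → ℂ) - Complex.I • J.map ((↑) : ℝ → ℂ)).PosSemidef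

theorem Cov.ineq (h : Cov J γ) (hJ' : Jᵀ = -J) (u v : m → ℝ) :
    0 ≤ u ⬝ᵥ γ *ᵥ u + v ⬝ᵥ γ *ᵥ v + 2 * u ⬝ᵥ J *ᵥ v := by
  have := (Complex.le_def.1 (h.2.dotProduct_mulVec_nonneg fun i => ⟨u i, v i⟩)).1
  have e : v ⬝ᵥ J *ᵥ u = -(u ⬝ᵥ J *ᵥ v) := by
    rw [dotProduct_mulVec, ← mulVec_transpose, hJ', neg_mulVec, neg_dotProduct, dotProduct_comm]
  refine this.trans_eq ?_
  rw [show 2 * u ⬝ᵥ J *ᵥ v = u ⬝ᵥ J *ᵥ v + -(v ⬝ᵥ J *ᵥ u) by rw [e]; ring]
  simp only [dotProduct, mulVec, mul_sum, Complex.re_sum, ← sum_add_distrib, ← sum_neg_distrib]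
  refine sum_congr rfl fun i _ => sum_congr rfl fun j _ => ?_
  simp; ring

theorem Cov.psd (h : Cov J γ) (hJ' : Jᵀ = -J) : γ.PosSemidef :=
  .of_dotProduct_mulVec_nonneg h.1 fun x => by simpa using h.ineq hJ' x 0

theorem Cov.even (h : Cov J γ) (hJ : Jᵀ * J = 1) (hJ' : Jᵀ = -J) :
    (1 - (γ + 1)⁻¹ - J * (γ + 1)⁻¹ * Jᵀ).PosSemidef := by
  have h1 := PosDef.posSemidef_add (h.psd hJ') PosDef.one
  have a := mul_nonsing_inv _ (isUnit_iff_isUnit_det _ |>.1 h1.isUnit)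
  refine .of_dotProduct_mulVec_nonneg ((isHermitian_one.sub h1.inv.1).sub
    (isHermitian_mul_mul_conjTranspose J h1.inv.1)) fun x => ?_
  generalize (γ + 1)⁻¹ = M at a
  have e : ∀ x, γ *ᵥ M *ᵥ x = x - M *ᵥ x := fun x => by
    rw [eq_sub_iff_add_eq, mulVec_mulVec, ← add_mulVec, ← add_one_mul, a, one_mulVec]
  have := h.ineq hJ' (M *ᵥ x) (-(M *ᵥ Jᵀ *ᵥ x))
  have t : ∀ u v : m → ℝ, (Jᵀ *ᵥ u) ⬝ᵥ v = u ⬝ᵥ J *ᵥ v := fun u v => by
    rw [dotProduct_mulVec, mulVec_transpose]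
  have k : ∀ v : m → ℝ, (J *ᵥ v) ⬝ᵥ J *ᵥ v = v ⬝ᵥ v := fun v => by
    rw [← t, mulVec_mulVec, hJ, one_mulVec]
  simp only [mulVec_neg, neg_dotProduct, dotProduct_neg, e, dotProduct_sub] at this
  rw [dotProduct_comm _ (Jᵀ *ᵥ x), t, ← k (M *ᵥ Jᵀ *ᵥ x)] at this
  simp only [star_trivial, sub_mulVec, one_mulVec, ← mulVec_mulVec, dotProduct_sub]
  generalize J *ᵥ M *ᵥ Jᵀ *ᵥ x = z at *
  generalize M *ᵥ x = y at *
  have h2 : 0 ≤ (x - y - z) ⬝ᵥ (x - y - z) := sum_nonneg fun i _ => mul_self_nonneg _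
  simp only [sub_dotProduct, dotProduct_sub] at h2
  linarith [dotProduct_comm x y, dotProduct_comm x z, dotProduct_comm y z]

end Pool.Agent.H.MP_18219f_mp
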