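import Pool.Agent.H.MP_18219f_mp.A

set_option autoImplicit false
set_option linter.unusedSectionVars false
open Set Matrix Finset
open scoped Pointwise

namespace Pool.Agent.H.MP_18219f_mp

variable {m k : Type} [Fintype m] [DecidableEq m] [Fintype k] [DecidableEq k]

def V (J γ : Matrix m m ℝ) : Set ℝ := (fun R => T ψ R / 4) '' Rs J γ

variable {J γ : Matrix m m ℝ}

theorem V_sub (e : k ≃ m) : V J γ ⊆ V (J.submatrix e e) (γ.submatrix e e) := by
  rintro _ ⟨R, ⟨h1, h2⟩, rfl⟩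
  refine ⟨R.submatrix e e, ⟨?_, ?_⟩, ?_⟩
  · rw [transpose_submatrix, submatrix_mul_equiv, submatrix_mul_equiv, h1, ← submatrix_one_equiv e]
    rfl
  · rw [← submatrix_one_equiv e, show γ.submatrix e e + (1 : Matrix m m ℝ).submatrix e e =
      (γ + 1).submatrix e e from rfl, inv_submatrix_equiv]
    exact h2.submatrix e
  · exact congrArg (fun p : Polynomial ℝ => (p.roots.map ψ).sum / 4) (charpoly_reindex e.symm R)

theorem V_eq (e : k ≃ m) : V (J.submatrix e e) (γ.submatrix e e) = V J γ :=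
  Subset.antisymm (by simpa using V_sub (J := J.submatrix e e) (γ := γ.submatrix e e) e.symm)
    (V_sub e)

theorem psd_blocks {A : Matrix m m ℝ} {B : Matrix k k ℝ} (hA : A.PosSemidef) (hB : B.PosSemidef) :
    (fromBlocks A 0 0 B).PosSemidef :=
  .of_dotProduct_mulVec_nonneg (hA.1.fromBlocks (by simp) hB.1) fun x => by
    have := add_nonneg (hA.dotProduct_mulVec_nonneg (x ∘ Sum.inl))
      (hB.dotProduct_mulVec_nonneg (x ∘ Sum.inr))
    simpa [fromBlocks_mulVec, dotProduct] using this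

theorem T_blocks (f : ℝ → ℝ) (A : Matrix m m ℝ) (B : Matrix k k ℝ) :
    T f (fromBlocks A 0 0 B) = T f A + T f B := by
  rw [T, charpoly_fromBlocks_zero₁₂, Polynomial.roots_mul
    (mul_ne_zero (charpoly_monic A).ne_zero (charpoly_monic B).ne_zero), Multiset.map_add,
    Multiset.sum_add, T, T]

theorem inv_blocks {γ' : Matrix k k ℝ} (h : γ.PosSemidef) (h' : γ'.PosSemidef) :
    (fromBlocks γ 0 0 γ' + 1)⁻¹ = fromBlocks (γ + 1)⁻¹ 0 0 (γ' + 1)⁻¹ := by
  refine inv_eq_right_inv ?_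
  rw [← fromBlocks_one, fromBlocks_add, fromBlocks_multiply]
  simp [mul_nonsing_inv _ (isUnit_iff_isUnit_det _ |>.1 (PosDef.posSemidef_add h PosDef.one).isUnit),
    mul_nonsing_inv _ (isUnit_iff_isUnit_det _ |>.1 (PosDef.posSemidef_add h' PosDef.one).isUnit)]

theorem V_add {J' γ' : Matrix k k ℝ} (h : γ.PosSemidef) (h' : γ'.PosSemidef) :
    V J γ + V J' γ' ⊆ V (fromBlocks J 0 0 J') (fromBlocks γ 0 0 γ') := by
  rintro _ ⟨_, ⟨R, ⟨h1, h2⟩, rfl⟩, _, ⟨R', ⟨h3, h4⟩, rfl⟩, rfl⟩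
  refine ⟨fromBlocks R 0 0 R', ⟨?_, ?_⟩, by simp only [T_blocks, add_div]⟩
  · rw [fromBlocks_transpose, fromBlocks_multiply, fromBlocks_multiply, ← fromBlocks_one,
      sub_eq_add_neg, fromBlocks_neg, fromBlocks_add]
    simp [h1, h3, sub_eq_add_neg]
  · rw [inv_blocks h h', sub_eq_add_neg, fromBlocks_neg, fromBlocks_add]
    simpa [sub_eq_add_neg] using psd_blocks h2 h4

theorem V_pinch {J' γ' : Matrix k k ℝ} (hJ : Jᵀ * J = 1) (hJ' : J'ᵀ * J' = 1) (h : γ.PosSemidef)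
    (h' : γ'.PosSemidef) : ∀ x ∈ V (fromBlocks J 0 0 J') (fromBlocks γ 0 0 γ'),
      ∃ a ∈ V J γ, ∃ b ∈ V J' γ', a + b ≤ x := by
  rintro _ ⟨R, hR, rfl⟩
  have o : ∀ {U : Matrix m m ℝ} {U' : Matrix k k ℝ}, Uᵀ * U = 1 → U'ᵀ * U' = 1 →
      (fromBlocks U 0 0 U')ᵀ * fromBlocks U 0 0 U' = 1 := fun a b => by
    rw [fromBlocks_transpose, fromBlocks_multiply, ← fromBlocks_one]; simp [a, b]
  have hp := Rs_pos (o hJ hJ') (psd_blocks h h') hR
  obtain ⟨h1, h2⟩ := hR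
  rw [inv_blocks h h'] at h2
  have h3 := h2.submatrix Sum.inl
  have h4 := h2.submatrix Sum.inr
  obtain ⟨A, B, C, D, rfl⟩ : ∃ A B C D, R = fromBlocks A B C D := ⟨_, _, _, _, (fromBlocks_toBlocks R).symm⟩
  rw [fromBlocks_transpose, fromBlocks_multiply, fromBlocks_multiply, ← fromBlocks_one,
    sub_eq_add_neg, fromBlocks_neg, fromBlocks_add, fromBlocks_inj] at h1
  have r1 : A ∈ Rs J γ := ⟨by simpa [sub_eq_add_neg] using h1.1, h3⟩
  have r2 : D ∈ Rs J' γ' := ⟨by simpa [sub_eq_add_neg] using h1.2.2.2, h4⟩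
  refine ⟨_, ⟨A, r1, rfl⟩, _, ⟨D, r2, rfl⟩, ?_⟩
  obtain ⟨U, d, hU, rfl⟩ := spec' (Rs_pos hJ h r1).1.1
  obtain ⟨U', d', hU', rfl⟩ := spec' (Rs_pos hJ' h' r2).1.1
  have := peierls hp (o hU hU')
  rw [fromBlocks_transpose, fromBlocks_multiply, fromBlocks_multiply, Fintype.sum_sum_type] at this
  simp only [fromBlocks_apply₁₁, fromBlocks_apply₂₂, transpose_zero, Matrix.zero_mul,
    Matrix.mul_zero, add_zero, zero_add, fc_back hU, fc_back hU', diagonal_apply_eq] at this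
  simp only [T_fc _ hU, T_fc _ hU']
  linarith

theorem V_bdd (hJ : Jᵀ * J = 1) (h : γ.PosSemidef) : BddBelow (V J γ) :=
  ⟨0, by rintro _ ⟨R, hR, rfl⟩; exact div_nonneg (T_nonneg (Rs_pos hJ h hR)) four_pos.le⟩

def Ys (J : Matrix m m ℝ) : Set (Matrix m m ℝ) := {Y | J * Y * Jᵀ = -Y ∧ (1 + Y).PosSemidef}

noncomputable def Pm (J γ : Matrix m m ℝ) : Matrix m m ℝ := 1 - (γ + 1)⁻¹ - J * (γ + 1)⁻¹ * Jᵀ

noncomputable def Rm (J γ Y : Matrix m m ℝ) : Matrix m m ℝ :=
  (γ + 1)⁻¹ + (1 / 2 : ℝ) • (cfc Real.sqrt (Pm J γ) * (1 + Y) * cfc Real.sqrt (Pm J γ))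

theorem θθ (hJ : Jᵀ * J = 1) (hJ' : Jᵀ = -J) (X : Matrix m m ℝ) : J * (J * X * Jᵀ) * Jᵀ = X := by
  have : J * J = -1 := by rw [← hJ, hJ', neg_mul, neg_neg]
  rw [hJ', ← mul_assoc, ← mul_assoc, mul_assoc _ (-J), neg_mul_neg, this]
  simp

theorem neg_psd {P W : Matrix m m ℝ} (h1 : J * P * Jᵀ = P) (h2 : J * W * Jᵀ = -W)
    (h : (P + W).PosSemidef) : (P - W).PosSemidef := by
  have := h.mul_mul_conjTranspose_same J
  rwa [conjTranspose_eq_transpose_of_trivial, mul_add, add_mul, h1, h2, ← sub_eq_add_neg] at this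

theorem Rs_eq (h : Cov J γ) (hJ : Jᵀ * J = 1) (hJ' : Jᵀ = -J) : Rs J γ = Rm J γ '' Ys J := by
  have hP : (Pm J γ).PosSemidef := h.even hJ hJ'
  have hJ2 := mul_eq_one_comm.1 hJ
  have ev : J * Pm J γ * Jᵀ = Pm J γ := by
    rw [Pm, mul_sub, mul_sub, sub_mul, sub_mul, θθ hJ hJ', mul_one, hJ2]; abel
  have cm : ∀ f : ℝ → ℝ, cfc f (Pm J γ) * J = J * cfc f (Pm J γ) := fun f => by
    have : Commute (Pm J γ) J := by
      have := congrArg (· * J) ev
      simp only [mul_assoc, hJ, mul_one] at this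
      exact this.symm
    exact (this.cfc_real f).eq
  have sw : ∀ (f : ℝ → ℝ) Y, J * (cfc f (Pm J γ) * Y * cfc f (Pm J γ)) * Jᵀ =
      cfc f (Pm J γ) * (J * Y * Jᵀ) * cfc f (Pm J γ) := fun f Y => by
    simp only [hJ', mul_neg, neg_mul, mul_assoc, cm, neg_inj]
    simp only [← mul_assoc, cm]
  obtain ⟨U, hU, hf⟩ := spec hP.1
  generalize hP.1.eigenvalues = d at hf
  have e : Pm J γ = fc U d := (cfc_id' ℝ (Pm J γ) hP.1).symm.trans (hf _)
  have d0 := fc_nonneg hU (e ▸ hP)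
  have ss : cfc Real.sqrt (Pm J γ) * cfc Real.sqrt (Pm J γ) = Pm J γ := by
    rw [hf, fc_mul hU, e]; simp only [Real.mul_self_sqrt (d0 _)]
  ext R
  constructor
  · rintro ⟨h1, h2⟩
    obtain ⟨W, hW⟩ : ∃ W, W = (2 : ℝ) • (R - (γ + 1)⁻¹) - Pm J γ := ⟨_, rfl⟩
    have w1 : J * W * Jᵀ = -W := by
      rw [hW, mul_sub, sub_mul, ev, mul_smul_comm, smul_mul_assoc, mul_sub, sub_mul, h1, Pm]; module
    have w2 : (Pm J γ + W).PosSemidef := by simpa [hW] using h2.smul (a := (2 : ℝ)) two_pos.le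
    have w3 := neg_psd ev w1 w2
    let q : ℝ → ℝ := fun t => (√t)⁻¹
    let E := fc U fun i => 1 - √(d i) * q (d i)
    have z : ∀ i, √(d i) * q (d i) = if d i = 0 then 0 else 1 := fun i => by
      split_ifs with c
      · simp [c]
      · exact mul_inv_cancel₀ (Real.sqrt_ne_zero'.2 ((d0 i).lt_of_ne' c))
    have pe : Pm J γ * E = 0 := by
      rw [e, fc_mul hU, show (fun i => d i * (1 - √(d i) * q (d i))) = 0 from funext fun i => by
        rw [z]; split_ifs with c <;> simp [c]]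
      simp [fc]
    have we : W * E = 0 := ext_of_mulVec_single fun i => by
      have a := w2.dotProduct_mulVec_nonneg (E *ᵥ Pi.single i 1)
      have b := w3.dotProduct_mulVec_nonneg (E *ᵥ Pi.single i 1)
      have c := w2.dotProduct_mulVec_zero_iff (E *ᵥ Pi.single i 1)
      simp only [mulVec_mulVec, add_mul, sub_mul, pe, zero_mulVec, zero_add, zero_sub, neg_mulVec,
        dotProduct_neg] at a b c ⊢
      exact c.1 (by linarith)
    have wt : Wᵀ = W := show W.IsSymm by simpa using w2.1.sub hP.1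
    have ew : E * W = 0 := by
      have := congrArg transpose we
      rwa [transpose_mul, wt, fc_tr, transpose_zero] at this
    have sq : cfc Real.sqrt (Pm J γ) * cfc q (Pm J γ) = 1 - E := by
      rw [hf, hf, fc_mul hU, ← fc_one hU, fc_sub]; simp
    have qs : cfc q (Pm J γ) * cfc Real.sqrt (Pm J γ) = 1 - E := by
      rw [hf, hf, fc_mul hU, ← fc_one hU, fc_sub]; simp [mul_comm]
    refine ⟨cfc q (Pm J γ) * W * cfc q (Pm J γ), ⟨by rw [sw, w1, mul_neg, neg_mul], ?_⟩, ?_⟩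
    · have := (fc_psd U (d := fun i => 1 - √(d i) * q (d i)) fun i => by
        rw [z]; split_ifs <;> simp).add (w2.conjTranspose_mul_mul_same (cfc q (Pm J γ)))
      rw [conjTranspose_eq_transpose_of_trivial, hf q, fc_tr, ← hf q, mul_add, add_mul,
        ← add_assoc] at this
      convert this using 2
      rw [hf, e, fc_mul hU, fc_mul hU, fc_add, ← fc_one hU]
      congr 1
      funext i
      rw [show q (d i) * d i * q (d i) = √(d i) * q (d i) * (√(d i) * q (d i)) by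
        linear_combination (q (d i) * q (d i)) * (Real.mul_self_sqrt (d0 i)).symm, z]
      split_ifs <;> simp
    · rw [Rm, mul_add, add_mul, mul_one, ss, ← mul_assoc, ← mul_assoc, sq, mul_assoc, qs, sub_mul,
        ew, one_mul, sub_zero, mul_sub, we, mul_one, sub_zero, hW]
      module
  · rintro ⟨Y, ⟨h1, h2⟩, rfl⟩
    constructor
    · rw [Rm, mul_add J, add_mul, mul_smul_comm, smul_mul_assoc, sw, mul_add J, add_mul, h1, mul_one,
        hJ2]
      simp only [mul_add, add_mul, mul_one, ss, mul_neg, neg_mul]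
      rw [show J * (γ + 1)⁻¹ * Jᵀ = 1 - (γ + 1)⁻¹ - Pm J γ by rw [Pm]; abel]
      module
    · have := h2.conjTranspose_mul_mul_same (cfc Real.sqrt (Pm J γ))
      rw [conjTranspose_eq_transpose_of_trivial, hf, fc_tr, ← hf] at this
      simpa [Rm] using this.smul (a := (1 / 2 : ℝ)) one_half_pos.le

theorem zero_mem : (0 : Matrix m m ℝ) ∈ Ys J := ⟨by simp, by simpa using PosSemidef.one⟩

theorem V_ne (h : Cov J γ) (hJ : Jᵀ * J = 1) (hJ' : Jᵀ = -J) : (V J γ).Nonempty :=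
  ⟨_, _, (Rs_eq h hJ hJ').ge ⟨0, zero_mem, rfl⟩, rfl⟩

theorem additive {J' γ' : Matrix k k ℝ} (h : Cov J γ) (hJ : Jᵀ * J = 1) (hJ1 : Jᵀ = -J)
    (h' : Cov J' γ') (hJ' : J'ᵀ * J' = 1) (hJ1' : J'ᵀ = -J') :
    ∃ a b, IsGLB (V J γ) a ∧ IsGLB (V J' γ') b ∧
      IsGLB (V (fromBlocks J 0 0 J') (fromBlocks γ 0 0 γ')) (a + b) := by
  have n1 := V_ne h hJ hJ1
  have n2 := V_ne h' hJ' hJ1'
  have b1 := V_bdd hJ (h.psd hJ1)
  have b2 := V_bdd hJ' (h'.psd hJ1')
  refine ⟨_, _, isGLB_csInf n1 b1, isGLB_csInf n2 b2, fun x hx => ?_, fun y hy => ?_⟩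
  · obtain ⟨a, ha, b, hb, e⟩ := V_pinch hJ hJ' (h.psd hJ1) (h'.psd hJ1') x hx
    exact (add_le_add (csInf_le b1 ha) (csInf_le b2 hb)).trans e
  · rw [← csInf_add n1 b1 n2 b2]
    exact le_csInf (n1.add n2) fun x hx => hy (V_add (h.psd hJ1) (h'.psd hJ1') hx)

theorem Ys_bd (hJ : Jᵀ * J = 1) {Y : Matrix m m ℝ} (h1 : J * Y * Jᵀ = -Y) (h2 : (1 + Y).PosSemidef)
    (i j : m) : Y i j ∈ Set.Icc (-1 : ℝ) 1 := by
  have h3 := neg_psd (by rw [mul_one, mul_eq_one_comm.1 hJ]) h1 h2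
  have s : Y j i = Y i j := by
    have := congrFun (congrFun h2.1 i) j
    simpa [Matrix.add_apply, one_apply, eq_comm] using this
  have a := h2.dotProduct_mulVec_nonneg (Pi.single i 1 + Pi.single j 1)
  have b := h2.dotProduct_mulVec_nonneg (Pi.single i 1 - Pi.single j 1)
  have c := h3.dotProduct_mulVec_nonneg (Pi.single i 1 + Pi.single j 1)
  have d := h3.dotProduct_mulVec_nonneg (Pi.single i 1 - Pi.single j 1)
  simp only [star_trivial, mulVec_add, mulVec_sub, add_dotProduct, sub_dotProduct, dotProduct_add,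
    dotProduct_sub, single_one_dotProduct, mulVec_single_one, col_apply, Matrix.add_apply,
    Matrix.sub_apply, one_apply_eq, s] at a b c d
  constructor <;> linarith

theorem Ys_cpt (hJ : Jᵀ * J = 1) : IsCompact (Ys J) := by
  refine (isCompact_univ_pi fun _ : m => isCompact_univ_pi fun _ : m =>
    isCompact_Icc (a := (-1 : ℝ)) (b := 1)).of_isClosed_subset ?_ fun Y h i _ j _ =>
      Ys_bd hJ h.1 h.2 i j
  simp only [Ys, posSemidef_iff_dotProduct_mulVec, ofPred_and, ofPred_forall, IsHermitian]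
  exact (isClosed_eq (by fun_prop) (by fun_prop)).inter ((isClosed_eq (by fun_prop)
      (by fun_prop)).inter (isClosed_iInter fun x => isClosed_le continuous_const (by fun_prop)))

open scoped Matrix.Norms.L2Operator in
theorem cfc_cont {X : Type} [TopologicalSpace X] {s : Set ℝ} (hs : IsOpen s) {f : ℝ → ℝ}
    (hf : ContinuousOn f s) {a : X → Matrix m m ℝ} (ha : Continuous a) (h : ∀ x, (a x).IsHermitian)
    (h' : ∀ x i, (h x).eigenvalues i ∈ s) : Continuous fun x => cfc f (a x) :=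
  have : CompleteSpace (Matrix m m ℝ) := FiniteDimensional.complete ℝ _
  ha.cfc_of_mem_nhdsSet f (hs.mem_nhdsSet.2 (iUnion_subset fun x => by
    rw [(h x).spectrum_real_eq_range_eigenvalues]; exact range_subset_iff.2 (h' x))) h hf

theorem G_cont (hJ : Jᵀ * J = 1) (hJ' : Jᵀ = -J) : ContinuousOn (fun γ => sInf (V J γ)) {γ | Cov J γ} := by
  have : CompactSpace (Ys J) := isCompact_iff_compactSpace.1 (Ys_cpt hJ)
  have c1 : Continuous fun γ : {γ | Cov J γ} => (γ.1 + 1)⁻¹ := continuous_iff_continuousAt.2 fun γ =>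
    (continuousAt_matrix_inv _ (by
      rw [Ring.inverse_eq_inv']
      exact continuousAt_inv₀ (PosDef.posSemidef_add (γ.2.psd hJ') PosDef.one).det_pos.ne')).comp
      (f := fun γ : {γ | Cov J γ} => γ.1 + 1) (by fun_prop)
  have c2 : Continuous fun γ : {γ | Cov J γ} => cfc Real.sqrt (Pm J γ.1) :=
    cfc_cont isOpen_univ Real.continuous_sqrt.continuousOn (by unfold Pm; fun_prop)
      (fun γ => (γ.2.even hJ hJ').1) fun _ _ => mem_univ _
  have hp : ∀ z : {γ | Cov J γ} × Ys J, (Rm J z.1.1 z.2.1).PosDef ∧ (1 - Rm J z.1.1 z.2.1).PosDef :=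
    fun z => Rs_pos hJ (z.1.2.psd hJ') ((Rs_eq z.1.2 hJ hJ').ge ⟨_, z.2.2, rfl⟩)
  have c3 : Continuous fun z : {γ | Cov J γ} × Ys J => cfc ψ (Rm J z.1.1 z.2.1) :=
    cfc_cont isOpen_Ioo ψ_cont ((c1.comp continuous_fst).add ((((c2.comp continuous_fst).mul
      (continuous_const.add (continuous_subtype_val.comp continuous_snd))).mul
      (c2.comp continuous_fst)).const_smul (1 / 2 : ℝ))) (fun z => (hp z).1.1) fun z => by
      obtain ⟨U, hU, hf⟩ := spec (hp z).1.1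
      exact fc_Ioo hU ((cfc_id' ℝ _ (hp z).1.1).symm.trans (hf _) ▸ hp z)
  refine continuousOn_iff_continuous_restrict.2 ((isCompact_univ.continuous_sInf
    (f := fun (γ : {γ | Cov J γ}) (Y : Ys J) => trace (cfc ψ (Rm J γ.1 Y.1)) / 4)
    (c3.matrix_trace.div_const 4)).congr fun γ => congrArg sInf ?_)
  rw [V, Rs_eq γ.2 hJ hJ', Set.image_image, Set.image_univ, image_eq_range]
  congr! 3 with Y
  obtain ⟨U, hU, hf⟩ := spec (hp (γ, Y)).1.1
  generalize (hp (γ, Y)).1.1.eigenvalues = d at hf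
  rw [hf, show Rm J γ.1 Y.1 = _ from (cfc_id' ℝ _ (hp (γ, Y)).1.1).symm.trans (hf _), T_fc _ hU,
    fc, trace_mul_cycle, hU, one_mul, trace_diagonal]

def σ (n : ℕ) : Matrix (Fin 2 × Fin n) (Fin 2 × Fin n) ℝ := blockDiagonal fun _ => !![0, 1; -1, 0]

theorem σ_tr (n : ℕ) : (σ n)ᵀ = -σ n := by
  rw [σ, blockDiagonal_transpose, ← blockDiagonal_neg]
  congr 1; ext _ i j; fin_cases i <;> fin_cases j <;> simp

theorem σ_orth (n : ℕ) : (σ n)ᵀ * σ n = 1 := by
  rw [σ, blockDiagonal_transpose, ← blockDiagonal_mul, ← blockDiagonal_one]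
  congr 1; ext _ i j; fin_cases i <;> fin_cases j <;> simp [mul_apply]

theorem vals_σ {n : ℕ} {γ : Matrix (Fin 2 × Fin n) (Fin 2 × Fin n) ℝ} (h : γ.PosSemidef) :
    vals (σ n) n γ = V (σ n) γ := vals_eq (σ_orth n) (σ_tr n) (by simp [two_mul]) h

end Pool.Agent.H.MP_18219f_mp
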